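import Pool.Agent.LKT.Stmts

/-!
# OPN (MP_e0fe99_lc): the set Om is open
-/

set_option autoImplicit false

open Topology

namespace Pool.Agent.LKT.H10

open Pool.Agent.LCK

theorem vv_cont (k : Fin 8) : Continuous fun x : Fin 8 → E3 => vv x k := by
  unfold vv
  fin_cases k
  · exact (continuous_apply 1).add (continuous_apply 0)
  · exact continuous_apply 1
  · exact continuous_apply 2
  · exact continuous_apply 3
  · exact continuous_apply 4
  · exact continuous_apply 5
  · exact continuous_apply 6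
  · exact (continuous_apply 6).add (continuous_apply 7)

theorem disj_open (a b c d : (Fin 8 → E3) → E3) (ha : Continuous a) (hb : Continuous b)
    (hc : Continuous c) (hd : Continuous d) :
    IsOpen {x | Disjoint (segment ℝ (a x) (b x)) (segment ℝ (c x) (d x))} := by
  rw [← isClosed_compl_iff]
  let K : Set ((Fin 8 → E3) × (unitInterval × unitInterval)) :=
    {p | (1 - (p.2.1 : ℝ)) • a p.1 + (p.2.1 : ℝ) • b p.1 =
      (1 - (p.2.2 : ℝ)) • c p.1 + (p.2.2 : ℝ) • d p.1}
  have hK : IsClosed K := by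
    apply isClosed_eq
    · fun_prop
    · fun_prop
  have himg : {x | Disjoint (segment ℝ (a x) (b x)) (segment ℝ (c x) (d x))}ᶜ = Prod.fst '' K := by
    ext x
    constructor
    · intro hx
      have hx' : ¬ Disjoint (segment ℝ (a x) (b x)) (segment ℝ (c x) (d x)) := hx
      rw [Set.not_disjoint_iff] at hx'
      obtain ⟨z, h1, h2⟩ := hx'
      rw [segment_eq_image] at h1 h2
      obtain ⟨s, hs, e1⟩ := h1
      obtain ⟨t, ht, e2⟩ := h2
      exact ⟨(x, (⟨s, hs⟩, ⟨t, ht⟩)), e1.trans e2.symm, rfl⟩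
    · rintro ⟨⟨x', s, t⟩, hK', rfl⟩ hdis
      have hdis' : Disjoint (segment ℝ (a x') (b x')) (segment ℝ (c x') (d x')) := hdis
      rw [Set.disjoint_left] at hdis'
      have hK2 : (1 - (s : ℝ)) • a x' + (s : ℝ) • b x' =
        (1 - (t : ℝ)) • c x' + (t : ℝ) • d x' := hK'
      apply hdis' (a := (1 - (s : ℝ)) • a x' + (s : ℝ) • b x')
      · rw [segment_eq_image]
        exact ⟨s, s.2, rfl⟩
      · rw [hK2, segment_eq_image]
        exact ⟨t, t.2, rfl⟩
  rw [himg]
  exact isClosedMap_fst_of_compactSpace _ hK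

theorem opn : OpnStmt := by
  have h1 : IsOpen {x : Fin 8 → E3 | ∀ i j : Fin 7, (i : ℕ) + 2 ≤ j →
      Disjoint (segment ℝ (vv x i.castSucc) (vv x i.succ))
        (segment ℝ (vv x j.castSucc) (vv x j.succ))} := by
    rw [Set.setOf_forall]
    refine isOpen_iInter_of_finite fun i => ?_
    rw [Set.setOf_forall]
    refine isOpen_iInter_of_finite fun j => ?_
    by_cases h : (i : ℕ) + 2 ≤ j
    · have he : {x : Fin 8 → E3 | (i : ℕ) + 2 ≤ j →
          Disjoint (segment ℝ (vv x i.castSucc) (vv x i.succ))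
            (segment ℝ (vv x j.castSucc) (vv x j.succ))} =
          {x : Fin 8 → E3 | Disjoint (segment ℝ (vv x i.castSucc) (vv x i.succ))
            (segment ℝ (vv x j.castSucc) (vv x j.succ))} := by
        ext x
        exact ⟨fun hx => hx h, fun hx _ => hx⟩
      rw [he]
      exact disj_open _ _ _ _ (vv_cont _) (vv_cont _) (vv_cont _) (vv_cont _)
    · have he : {x : Fin 8 → E3 | (i : ℕ) + 2 ≤ j →
          Disjoint (segment ℝ (vv x i.castSucc) (vv x i.succ))
            (segment ℝ (vv x j.castSucc) (vv x j.succ))} = Set.univ := by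
        ext x
        exact ⟨fun _ => trivial, fun _ hx => absurd hx h⟩
      rw [he]
      exact isOpen_univ
  have h2 : ∀ (P : Fin 8 → Prop) (m n : Fin 8),
      IsOpen {x : Fin 8 → E3 | ∀ j : Fin 8, P j → ‖x j - x m‖ < ‖x n‖} := by
    intro P m n
    rw [Set.setOf_forall]
    refine isOpen_iInter_of_finite fun j => ?_
    by_cases h : P j
    · have he : {x : Fin 8 → E3 | P j → ‖x j - x m‖ < ‖x n‖} =
          {x : Fin 8 → E3 | ‖x j - x m‖ < ‖x n‖} := by
        ext x
        exact ⟨fun hx => hx h, fun hx _ => hx⟩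
      rw [he]
      exact isOpen_lt ((continuous_apply j).sub (continuous_apply m)).norm
        (continuous_apply n).norm
    · have he : {x : Fin 8 → E3 | P j → ‖x j - x m‖ < ‖x n‖} = Set.univ := by
        ext x
        exact ⟨fun _ => trivial, fun _ hx => absurd hx h⟩
      rw [he]
      exact isOpen_univ
  have hOm : Om = {x : Fin 8 → E3 | ∀ i j : Fin 7, (i : ℕ) + 2 ≤ j →
      Disjoint (segment ℝ (vv x i.castSucc) (vv x i.succ))
        (segment ℝ (vv x j.castSucc) (vv x j.succ))} ∩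
      ({x : Fin 8 → E3 | ∀ j : Fin 8, (2 ≤ j ∧ j ≤ 6) → ‖x j - x 1‖ < ‖x 0‖} ∩
      {x : Fin 8 → E3 | ∀ j : Fin 8, (1 ≤ j ∧ j ≤ 5) → ‖x j - x 6‖ < ‖x 7‖}) := by
    ext x
    constructor
    · rintro ⟨a, b, c⟩
      exact ⟨a, fun j hj => b j hj.1 hj.2, fun j hj => c j hj.1 hj.2⟩
    · rintro ⟨a, b, c⟩
      exact ⟨a, fun j h h' => b j ⟨h, h'⟩, fun j h h' => c j ⟨h, h'⟩⟩
  unfold OpnStmt
  rw [hOm]
  exact h1.inter ((h2 _ 1 0).inter (h2 _ 6 7))

end Pool.Agent.LKT.H10
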